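import Pool.Agent.Helper97.Ku.GoalsG

/-! Sets named by names of elements (packet RZW of MP_47bc22_lc). -/

namespace Pool.Agent.Helper97.Ku.PkRzw

universe u

open BSet

variable {Ω : Type u} [LinearOrder Ω] {L : Type u} [CompleteBooleanAlgebra L]

omit [LinearOrder Ω] in
theorem le_of_names (p q : L) (a b : WN Ω L) (h : ∀ i j, p ⊓ a.v i ⊓ b.v j ≤ q) : p ≤ q := by
  have h1 : p = ⨆ i, ⨆ j, (p ⊓ a.v i ⊓ b.v j) := by
    simp only [← inf_iSup_eq, b.tot, inf_top_eq, a.tot]
  rw [h1]
  exact iSup_le fun i => iSup_le fun j => h i j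

omit [LinearOrder Ω] in
theorem le_of_name (p q : L) (a : WN Ω L) (h : ∀ i, p ⊓ a.v i ≤ q) : p ≤ q := by
  have h1 : p = ⨆ i, (p ⊓ a.v i) := by
    rw [← inf_iSup_eq, a.tot, inf_top_eq]
  rw [h1]
  exact iSup_le fun i => h i

/-- A disjoint family extends to a name. -/
theorem exists_name (c0 : Ω) (w : Ω → L) (hw : ∀ b b', b ≠ b' → w b ⊓ w b' = ⊥) :
    ∃ a : WN Ω L, ∀ b, w b ≤ a.v b := by
  set c : L := ⨆ b, w b with hc
  have hwc : ∀ b, w b ⊓ cᶜ = ⊥ := fun b => by
    rw [eq_bot_iff, ← inf_compl_self c]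
    exact inf_le_inf_right _ (le_iSup w b)
  refine ⟨⟨fun b => w b ⊔ (bo (b = c0) ⊓ cᶜ), ?_, ?_⟩, fun b => le_sup_left⟩
  · rw [eq_top_iff, ← sup_compl_eq_top (x := c)]
    refine sup_le ?_ ?_
    · exact iSup_mono fun b => le_sup_left
    · refine le_trans ?_ (le_iSup (fun b => w b ⊔ (bo (b = c0) ⊓ cᶜ)) c0)
      rw [bo_true rfl, top_inf_eq]
      exact le_sup_right
  · intro b b' h
    rw [inf_sup_left, inf_sup_right, inf_sup_right, hw b b' h, bot_sup_eq]
    have h1 : (bo (b = c0) ⊓ cᶜ ⊓ w b' : L) = ⊥ := by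
      rw [inf_assoc, inf_comm cᶜ, hwc, inf_bot_eq]
    have h2 : (w b ⊓ (bo (b' = c0) ⊓ cᶜ) : L) = ⊥ := by
      rw [inf_left_comm, hwc, inf_bot_eq]
    have h3 : (bo (b = c0) ⊓ cᶜ ⊓ (bo (b' = c0) ⊓ cᶜ) : L) = ⊥ := by
      by_cases hb : b = c0
      · rw [bo_false (P := b' = c0) (fun hk => h (hb.trans hk.symm)), bot_inf_eq, inf_bot_eq]
      · rw [bo_false hb, bot_inf_eq, bot_inf_eq]
    rw [h1, h2, h3, bot_sup_eq, bot_sup_eq]

theorem rzw : G_CHK.{u} → G_RZW.{u} := by
  intro hchk Ω _ _ L _ G U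
  obtain ⟨c1, c2, c3, c4, -, -⟩ := hchk Ω L G U
  have hmem : ∀ (a : WN Ω L) (z : BSet L), z.mem a.set = ⨆ j, (a.v j ⊓ z.mem (ck j)) := by
    intro a z
    rw [WN.set, mem_mk, iSup_sigma]
    refine iSup_congr fun j => ?_
    change (⨆ t : Set.Iio j, a.v j ⊓ z.eq (ck t.1)) = _
    rw [← inf_iSup_eq, c1, iSup_subtype]
    rfl
  have h1 : ∀ (a : WN Ω L) (i : Ω), a.v i ≤ a.set.eq (ck i) := by
    intro a i
    refine le_trans ?_ (ext_le _ _)
    refine le_iInf fun z => le_inf ?_ ?_
    · rw [le_himp_iff, hmem, inf_iSup_eq]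
      refine iSup_le fun j => ?_
      by_cases hj : i = j
      · subst hj
        exact le_trans inf_le_right inf_le_right
      · rw [← inf_assoc, a.dj _ _ hj, bot_inf_eq]
        exact bot_le
    · rw [le_himp_iff, hmem]
      exact le_iSup (fun j => a.v j ⊓ z.mem (ck j)) i
  have h1' : ∀ (a : WN Ω L) (i : Ω), a.v i ≤ (ck i).eq a.set := by
    intro a i
    rw [eq_comm']
    exact h1 a i
  refine ⟨h1, ?_, ?_, ?_, ?_, ?_⟩
  · intro a
    rw [eq_top_iff, c2, ← a.tot]
    exact iSup_mono fun b => h1 a b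
  · intro x hx
    have hd : ∀ b b' : Ω, b ≠ b' → x.eq (ck b) ⊓ x.eq (ck b') = ⊥ := by
      intro b b' h
      rw [eq_bot_iff, eq_comm' x (ck b)]
      refine le_trans (eq_trans _ _ _) ?_
      rw [c3, bo_false h]
    obtain ⟨a, ha⟩ := exists_name G.c0 (fun b => x.eq (ck b)) hd
    refine ⟨a, ?_⟩
    rw [NM.mk_eq]
    refine U.mono ?_ hx
    rw [c2]
    refine iSup_le fun b => ?_
    refine le_trans ?_ (eq_trans x (ck b) a.set)
    exact le_inf le_rfl (le_trans (ha b) (h1' a b))
  · intro a b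
    apply le_antisymm
    · refine le_of_names _ _ a b fun i j => ?_
      have h2 : a.set.eq b.set ⊓ a.v i ⊓ b.v j ≤ bo (i = j) := by
        rw [← c3]
        refine le_trans ?_ (eq_trans (ck i) b.set (ck j))
        refine inf_le_inf ?_ (h1 b j)
        refine le_trans ?_ (eq_trans (ck i) a.set b.set)
        rw [inf_comm]
        exact inf_le_inf_right _ (h1' a i)
      by_cases hij : i = j
      · subst hij
        refine le_trans ?_ (le_iSup (fun i => a.v i ⊓ b.v i) i)
        exact inf_le_inf_right _ inf_le_right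
      · rw [bo_false hij] at h2
        exact le_trans h2 bot_le
    · refine iSup_le fun i => ?_
      exact le_trans (inf_le_inf (h1 a i) (h1' b i)) (eq_trans _ _ _)
  · intro a b
    apply le_antisymm
    · refine le_of_names _ _ a b fun i j => ?_
      have h2 : a.set.mem b.set ⊓ a.v i ⊓ b.v j ≤ bo (i < j) := by
        rw [← c4]
        refine le_trans ?_ (mem_congr_right b.set (ck j) (ck i))
        rw [inf_comm]
        refine inf_le_inf (h1 b j) ?_
        refine le_trans ?_ (mem_congr_left a.set (ck i) b.set)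
        rw [inf_comm]
        exact inf_le_inf_right _ (h1 a i)
      refine le_trans ?_ (le_iSup _ i)
      refine le_trans ?_ (le_iSup _ j)
      refine le_inf ?_ h2
      exact inf_le_inf_right _ inf_le_right
    · refine iSup_le fun i => iSup_le fun j => ?_
      rw [← c4]
      refine le_trans ?_ (mem_congr_right (ck j) b.set a.set)
      refine le_inf (le_trans (le_trans inf_le_left inf_le_right) (h1' b j)) ?_
      refine le_trans ?_ (mem_congr_left (ck i) a.set (ck j))
      exact inf_le_inf (le_trans inf_le_left (h1' a i)) le_rfl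
  · intro a
    apply le_antisymm
    · refine le_of_name _ _ a fun i => ?_
      refine le_trans ?_ (le_iSup _ i)
      refine le_inf inf_le_right ?_
      rw [← c4]
      refine le_trans ?_ (mem_congr_left a.set (ck i) (ck G.w0))
      rw [inf_comm]
      exact inf_le_inf_right _ (h1 a i)
    · refine iSup_le fun i => ?_
      rw [← c4]
      refine le_trans ?_ (mem_congr_left (ck i) a.set (ck G.w0))
      exact inf_le_inf_right _ (h1' a i)

end Pool.Agent.Helper97.Ku.PkRzw

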